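import Mathlib
import Pool.Agent.H542R2.Lift

/-!
Exact statements of the parts of the clique theorem (as `Prop`s, no proofs here).
-/

namespace H542.CL

open Finset

/-- CL1: a sparse expanding system with `M ≤ 4 n` rows (generalises `H542.exists_expander`) -/
def ExpanderProp : Prop := ∀ (n M : ℕ), 0 < n → M ≤ 4 * n → ∃ R : Fin M → Fin n → ZMod 2,
    (∀ v, (univ.filter fun i => R v i ≠ 0).card ≤ 8) ∧ Expd R (n / 640000)

/-- CL2: a right-hand side for which every assignment violates a sixteenth of the `4 n` rows -/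
def RhsProp : Prop := ∀ (n : ℕ) (R : Fin (4 * n) → Fin n → ZMod 2), 0 < n →
    ∃ b : Fin (4 * n) → ZMod 2, ∀ y : Fin n → ZMod 2,
      4 * n ≤ 16 * (univ.filter fun v => val R b y v ≠ 0).card

/-- CL3: the distribution of the rows to `k` groups of `r` rows -/
def DesignProp : Prop := ∀ (k r M m : ℕ), 0 < M → 0 < k → 12 * (M + k) ≤ r * m →
    ∃ grp : Fin k → Fin r → Fin M, ∀ B : Finset (Fin M), M ≤ 16 * B.card →
      (univ.filter fun g => ∀ j, grp g j ∉ B).card < m

/-- CL4: the numerical core (the parameter part of the proof of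
`Pool.Agent.Results.MP_db7e04_lc.LinearSizeLines.result`, with `N := k * n`,
320000 replaced by 640000, an arbitrary number `M` of rows and `blk = Prod.fst`) -/
def CoreProp : Prop := ∀ (a C : ℕ), ∃ (k : ℕ) (c : ℝ) (n0 : ℕ), 1 ≤ k ∧ 0 < c ∧ ∀ n ≥ n0,
    ∀ (M : ℕ) (R : Fin M → Fin n → ZMod 2) (b : Fin M → ZMod 2), Expd R (n / 640000) →
      (∀ v, (univ.filter fun i => R v i ≠ 0).card ≤ 8) →
      ∀ (S : ℕ) (φ : Fin S → T (Fin n × Fin k) ⊕ Bool), (∀ j, leavess (φ j) ≤ C * (k * n)) →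
        (S : ℝ) < (2 : ℝ) ^ (c * n) →
        (∀ j, (∃ v, ∀ z : Fin n × Fin k → Bool,
            ∑ x ∈ eqv (Prod.fst : Fin n × Fin k → Fin n) R v, bz (z x) = b v →
              evs z (φ j) = true) ∨
          ∃ P : Finset (Fin S), P.card ≤ a ∧ (∀ p ∈ P, p < j) ∧
            ∀ z, (∀ p ∈ P, evs z (φ p) = true) → evs z (φ j) = true) →
        ∀ j, ∃ z, evs z (φ j) = true

end H542.CL
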