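import Pool.Agent.H542R2.CL.Stubs

/-! CL2 (helper602): a right-hand side with many violated rows. -/

namespace H542.CL

open Finset

namespace CL2

variable {n M : ℕ}

theorem weight_eq (R : Fin M → Fin n → ZMod 2) (b : Fin M → ZMod 2) (y : Fin n → ZMod 2) :
    ((1 : ℝ) / 16) ^ (univ.filter fun v => val R b y v ≠ 0).card =
      ∏ v, (if b v + ∑ i, R v i * y i ≠ 0 then (1 : ℝ) / 16 else 1) := by
  rw [Finset.prod_ite, Finset.prod_const_one, mul_one, Finset.prod_const]
  rfl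

theorem sum_row (s : ZMod 2) : ∑ t : ZMod 2, (if t + s ≠ 0 then (1 : ℝ) / 16 else 1) = 17 / 16 := by
  have h2 : ∀ t : ZMod 2, t = 0 ∨ t = 1 := by decide
  have hu : (univ : Finset (ZMod 2)) = {0, 1} := by decide
  rw [hu, Finset.sum_pair (by decide)]
  rcases h2 s with rfl | rfl
  · have h1 : ((0 : ZMod 2) + 0 ≠ 0) = False := by simp
    have h3 : ((1 : ZMod 2) + 0 ≠ 0) = True := by simp
    simp only [h1, h3, if_true, if_false]
    norm_num
  · have h1 : ((0 : ZMod 2) + 1 ≠ 0) = True := by simp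
    have h3 : ((1 : ZMod 2) + 1 ≠ 0) = False := by
      rw [eq_iff_iff, iff_false, not_not]
      decide
    simp only [h1, h3, if_true, if_false]
    norm_num

theorem sum_b (R : Fin M → Fin n → ZMod 2) (y : Fin n → ZMod 2) :
    ∑ b : Fin M → ZMod 2, ((1 : ℝ) / 16) ^ (univ.filter fun v => val R b y v ≠ 0).card =
      (17 / 16) ^ M := by
  simp_rw [weight_eq]
  have h := Finset.prod_univ_sum (fun _ : Fin M => (univ : Finset (ZMod 2)))
    (fun v t => if t + ∑ i, R v i * y i ≠ 0 then (1 : ℝ) / 16 else 1)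
  rw [Fintype.piFinset_univ] at h
  rw [← h]
  simp_rw [sum_row]
  rw [Finset.prod_const, Finset.card_univ, Fintype.card_fin]

end CL2

open CL2 in
theorem cl2 : RhsProp := by
  intro n R hn
  by_contra hcon
  push Not at hcon
  have hup : ∑ b : Fin (4 * n) → ZMod 2, ∑ y : Fin n → ZMod 2,
      ((1 : ℝ) / 16) ^ (univ.filter fun v => val R b y v ≠ 0).card =
      2 ^ n * (17 / 16) ^ (4 * n) := by
    rw [Finset.sum_comm]
    simp_rw [sum_b]
    rw [Finset.sum_const, Finset.card_univ, nsmul_eq_mul]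
    congr 1
    simp
  have hlow : ∀ b : Fin (4 * n) → ZMod 2, ((1 : ℝ) / 2) ^ n ≤ ∑ y : Fin n → ZMod 2,
      ((1 : ℝ) / 16) ^ (univ.filter fun v => val R b y v ≠ 0).card := by
    intro b
    obtain ⟨y, hy⟩ := hcon b
    have h1 : ((1 : ℝ) / 16) ^ (univ.filter fun v => val R b y v ≠ 0).card ≤
        ∑ y : Fin n → ZMod 2, ((1 : ℝ) / 16) ^ (univ.filter fun v => val R b y v ≠ 0).card :=
      Finset.single_le_sum (f := fun y : Fin n → ZMod 2 =>
        ((1 : ℝ) / 16) ^ (univ.filter fun v => val R b y v ≠ 0).card)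
        (fun _ _ => by positivity) (Finset.mem_univ y)
    refine le_trans ?_ h1
    have e : ((1 : ℝ) / 16) = (1 / 2) ^ 4 := by norm_num
    rw [e, ← pow_mul]
    exact pow_le_pow_of_le_one (by norm_num) (by norm_num) (by omega)
  have h2 := Finset.sum_le_sum (s := (univ : Finset (Fin (4 * n) → ZMod 2))) fun b _ => hlow b
  rw [hup, Finset.sum_const, Finset.card_univ, nsmul_eq_mul] at h2
  have hcard : ((Fintype.card (Fin (4 * n) → ZMod 2) : ℕ) : ℝ) = 2 ^ (4 * n) := by simp
  rw [hcard, pow_mul, pow_mul, ← mul_pow, ← mul_pow] at h2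
  have h3 : ((2 : ℝ) * (17 / 16) ^ 4) ^ n < ((2 : ℝ) ^ 4 * (1 / 2)) ^ n :=
    pow_lt_pow_left₀ (by norm_num) (by norm_num) hn.ne'
  exact absurd h2 (not_le.2 h3)

end H542.CL
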