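import Mathlib
import Pool.Agent.H542R2.CL.Stubs

/-!
CL3: design by counting.
-/

set_option autoImplicit false

namespace H542.CL

open Finset

namespace CL3

/-- the maps sending all pairs with first coordinate in `U` into `Q` -/
def gs {k r M : ℕ} (U : Finset (Fin k)) (Q : Finset (Fin M)) : Finset (Fin k × Fin r → Fin M) :=
  Fintype.piFinset fun p => if p.1 ∈ U then Q else univ

theorem card_gs {k r M : ℕ} (U : Finset (Fin k)) (Q : Finset (Fin M)) :
    (gs (r := r) U Q).card = Q.card ^ (r * U.card) * M ^ (r * (k - U.card)) := by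
  unfold gs
  rw [Fintype.card_piFinset]
  rw [Fintype.prod_prod_type]
  have h1 : ∀ v : Fin k, ∏ j : Fin r, (if (v, j).1 ∈ U then Q else (univ : Finset (Fin M))).card =
      (if v ∈ U then Q.card else M) ^ r := by
    intro v
    by_cases hv : v ∈ U
    · simp [hv]
    · simp [hv]
  rw [prod_congr rfl fun v _ => h1 v, prod_pow, prod_ite, prod_const, prod_const]
  have h2 : (univ.filter fun v => v ∈ U) = U := by ext v; simp
  have h3 : (univ.filter fun v => v ∉ U).card = k - U.card := by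
    have : (univ.filter fun v => v ∉ U) = Uᶜ := by ext v; simp
    rw [this, card_compl, Fintype.card_fin]
  rw [h2, h3, mul_pow, ← pow_mul, ← pow_mul]
  congr 2 <;> ring

end CL3

open CL3 in
theorem cl3 : DesignProp := by
  classical
  intro k r M m hM hk hrm
  by_contra hcon
  push Not at hcon
  -- every map is bad
  have hbad : ∀ f : Fin k × Fin r → Fin M, ∃ B : Finset (Fin M), ∃ T : Finset (Fin k),
      M ≤ 16 * B.card ∧ T.card = m ∧ f ∈ gs (r := r) T Bᶜ := by
    intro f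
    obtain ⟨B, hB, hc⟩ := hcon (fun g j => f (g, j))
    obtain ⟨T, hT1, hT2⟩ := exists_subset_card_eq hc
    refine ⟨B, T, hB, hT2, ?_⟩
    rw [gs, Fintype.mem_piFinset]
    intro p
    by_cases hp : p.1 ∈ T
    · rw [if_pos hp, mem_compl]
      have h1 := hT1 hp
      rw [mem_filter] at h1
      exact h1.2 p.2
    · rw [if_neg hp]
      exact mem_univ _
  have hmk : m ≤ k := by
    obtain ⟨B, T, -, hT, -⟩ := hbad (fun _ => ⟨0, hM⟩)
    rw [← hT]
    exact (card_le_univ T).trans (by rw [Fintype.card_fin])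
  set I : Finset (Finset (Fin M) × Finset (Fin k)) :=
    (univ ×ˢ univ).filter (fun q => M ≤ 16 * q.1.card ∧ q.2.card = m) with hI
  have hcover : (univ : Finset (Fin k × Fin r → Fin M)) ⊆
      I.biUnion fun q => gs (r := r) q.2 q.1ᶜ := by
    intro f _
    obtain ⟨B, T, hB, hT, hf⟩ := hbad f
    rw [mem_biUnion]
    refine ⟨(B, T), ?_, hf⟩
    rw [hI, mem_filter]
    exact ⟨mem_product.2 ⟨mem_univ _, mem_univ _⟩, hB, hT⟩
  have hcard : M ^ (r * k) ≤ ∑ q ∈ I, (gs (r := r) q.2 q.1ᶜ).card := by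
    have h1 := (card_le_card hcover).trans card_biUnion_le
    rw [card_univ, Fintype.card_fun, Fintype.card_fin, Fintype.card_prod, Fintype.card_fin,
      Fintype.card_fin, mul_comm k r] at h1
    exact h1
  have hterm : ∀ q ∈ I, 16 ^ (r * m) * (gs (r := r) q.2 q.1ᶜ).card ≤
      15 ^ (r * m) * M ^ (r * k) := by
    intro q hq
    rw [hI, mem_filter] at hq
    obtain ⟨-, hB, hT⟩ := hq
    rw [card_gs, hT, card_compl, Fintype.card_fin]
    have h1 : 16 * (M - q.1.card) ≤ 15 * M := by omega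
    have h2 : 16 ^ (r * m) * (M - q.1.card) ^ (r * m) ≤ 15 ^ (r * m) * M ^ (r * m) := by
      rw [← mul_pow, ← mul_pow]
      exact Nat.pow_le_pow_left h1 _
    have h3 : M ^ (r * k) = M ^ (r * m) * M ^ (r * (k - m)) := by
      rw [← pow_add, ← mul_add, Nat.add_sub_cancel' hmk]
    calc 16 ^ (r * m) * ((M - q.1.card) ^ (r * m) * M ^ (r * (k - m)))
        = 16 ^ (r * m) * (M - q.1.card) ^ (r * m) * M ^ (r * (k - m)) := by ring
      _ ≤ 15 ^ (r * m) * M ^ (r * m) * M ^ (r * (k - m)) := Nat.mul_le_mul_right _ h2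
      _ = 15 ^ (r * m) * M ^ (r * k) := by rw [h3]; ring
  have hIcard : I.card ≤ 2 ^ (M + k) := by
    rw [hI]
    refine (card_filter_le _ _).trans ?_
    rw [card_product, card_univ, card_univ, Fintype.card_finset, Fintype.card_finset,
      Fintype.card_fin, Fintype.card_fin, ← pow_add]
  have hmain : 16 ^ (r * m) * M ^ (r * k) ≤ 2 ^ (M + k) * 15 ^ (r * m) * M ^ (r * k) := by
    calc 16 ^ (r * m) * M ^ (r * k)
        ≤ 16 ^ (r * m) * ∑ q ∈ I, (gs (r := r) q.2 q.1ᶜ).card := Nat.mul_le_mul_left _ hcard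
      _ = ∑ q ∈ I, 16 ^ (r * m) * (gs (r := r) q.2 q.1ᶜ).card := by rw [mul_sum]
      _ ≤ ∑ q ∈ I, 15 ^ (r * m) * M ^ (r * k) := sum_le_sum hterm
      _ = I.card * (15 ^ (r * m) * M ^ (r * k)) := by rw [sum_const, smul_eq_mul]
      _ ≤ 2 ^ (M + k) * (15 ^ (r * m) * M ^ (r * k)) := Nat.mul_le_mul_right _ hIcard
      _ = 2 ^ (M + k) * 15 ^ (r * m) * M ^ (r * k) := by ring
  have hmain2 : 16 ^ (r * m) ≤ 2 ^ (M + k) * 15 ^ (r * m) :=
    Nat.le_of_mul_le_mul_right hmain (pow_pos hM _)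
  obtain ⟨e, he⟩ := Nat.exists_eq_add_of_le hrm
  have hs : M + k ≠ 0 := by omega
  have h1 : (2 * 15 ^ 12) ^ (M + k) < (16 ^ 12) ^ (M + k) :=
    Nat.pow_lt_pow_left (by norm_num) hs
  have h2 : 15 ^ e ≤ 16 ^ e := Nat.pow_le_pow_left (by norm_num) e
  have h3 : 2 ^ (M + k) * 15 ^ (r * m) = (2 * 15 ^ 12) ^ (M + k) * 15 ^ e := by
    rw [he, pow_add 15, pow_mul 15, mul_pow]
    ring
  have h4 : 16 ^ (r * m) = (16 ^ 12) ^ (M + k) * 16 ^ e := by
    rw [he, pow_add 16, pow_mul 16]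
  rw [h3, h4] at hmain2
  have h5 : (2 * 15 ^ 12) ^ (M + k) * 15 ^ e < (16 ^ 12) ^ (M + k) * 16 ^ e :=
    Nat.mul_lt_mul_of_lt_of_le h1 h2 (pow_pos (by norm_num) e)
  omega

end H542.CL
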