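import Mathlib
import Pool.Agent.H542R2.CL.Stubs

/-!
CL4: the numerical core.
-/

namespace H542.CL

open Finset

theorem cl4 : CoreProp := by
  intro a C
  -- parameters
  obtain ⟨q, hq⟩ : ∃ q, q = 2 * (a + 1) * 640000 := ⟨_, rfl⟩
  obtain ⟨C', hC'⟩ : ∃ C', C' = C + 1 := ⟨_, rfl⟩
  have hq0 : (0 : ℝ) < q := by rw [hq]; positivity
  have hC0 : (0 : ℝ) < C' := by rw [hC']; positivity
  obtain ⟨t, ht⟩ : ∃ t : ℝ, t = Real.exp (44 * q * (2 * C' + 1)) := ⟨_, rfl⟩
  have ht0 : 0 < t := by rw [ht]; exact Real.exp_pos _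
  obtain ⟨k, hk1, hk⟩ := th_small (1 / (4 * q * C' * t)) (by positivity)
  obtain ⟨r, hr⟩ : ∃ r, r = 2 * C' * k * q := ⟨_, rfl⟩
  have hk0 : (0 : ℝ) < k := by exact_mod_cast hk1
  have hq1 : 1 ≤ q := by rw [hq]; omega
  have hC1 : 1 ≤ C' := by omega
  have hr1 : 1 ≤ r := by
    rw [hr]
    exact Nat.mul_pos (Nat.mul_pos (Nat.mul_pos (by norm_num) hC1) hk1) hq1
  have hr0 : (0 : ℝ) < r := by exact_mod_cast hr1
  obtain ⟨n0, hn0⟩ : ∃ n0, n0 = 5120000 + 44 * q * r := ⟨_, rfl⟩
  refine ⟨k, 1 / r, n0, hk1, by positivity, ?_⟩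
  intro n hnn0 M R b hRe hR8 S φ hφ hcon hstep
  have hnpos : 0 < n := by omega
  have hN2 : k * n ≤ 2 * k * n := by nlinarith
  have hnR : (0 : ℝ) < n := by exact_mod_cast hnpos
  have hcnt : ∀ i, k ≤ cnt (Prod.fst : Fin n × Fin k → Fin n) univ i := by
    intro i
    have hcard : (univ : Finset (Fin k)).card ≤ ((univ : Finset (Fin n × Fin k)).filter
        fun x => x.1 = i).card := by
      apply card_le_card_of_injOn (fun j : Fin k => (i, j))
      · intro j _
        exact mem_coe.mpr (mem_filter.mpr ⟨mem_univ _, rfl⟩)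
      · intro j _ j' _ h
        simp only [Prod.mk.injEq] at h
        exact h.2
    simpa [cnt] using hcard
  obtain ⟨w, hw⟩ : ∃ w, w = n / q := ⟨_, rfl⟩
  obtain ⟨K, hK⟩ : ∃ K, K = w / (22 * r) := ⟨_, rfl⟩
  have hqr : q ≤ 44 * q * r := by nlinarith
  have hw1 : 1 ≤ w := by
    rw [hw, Nat.le_div_iff_mul_le (by omega)]
    omega
  have hKw : 22 * (K * r) ≤ w := by
    have := Nat.div_mul_le_self w (22 * r)
    rw [← hK] at this
    nlinarith
  have hsr : C' * (k * n) / r ≤ n / q := by
    calc C' * (k * n) / r ≤ (2 * C' * k * n) / r := by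
          apply Nat.div_le_div_right
          calc C' * (k * n) ≤ C' * (2 * k * n) := Nat.mul_le_mul_left _ hN2
            _ = 2 * C' * k * n := by ring
      _ = n / q := by
          rw [hr]
          exact Nat.mul_div_mul_left n q (Nat.mul_pos (Nat.mul_pos (by norm_num) hC1) hk1)
  have hah : (a + 1) * (C' * (k * n) / r + w) + 8 ≤ 2 * (n / 640000) := by
    have h1 : (a + 1) * (C' * (k * n) / r + w) ≤ n / 640000 := by
      rw [Nat.le_div_iff_mul_le (by norm_num)]
      have h2 := Nat.div_mul_le_self n q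
      calc (a + 1) * (C' * (k * n) / r + w) * 640000 ≤ (a + 1) * (n / q + n / q) * 640000 := by
            apply Nat.mul_le_mul_right
            apply Nat.mul_le_mul_left
            rw [hw]
            exact Nat.add_le_add_right hsr _
        _ = n / q * (2 * (a + 1) * 640000) := by ring
        _ = n / q * q := by rw [← hq]
        _ ≤ n := h2
    have h3 : 8 ≤ n / 640000 := by
      rw [Nat.le_div_iff_mul_le (by norm_num)]
      omega
    omega
  have hmain : (S : ℝ) * Real.exp ((C' * (k * n) / r : ℕ) / k) *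
      (th k * (C' * (k * n) : ℕ)) ^ K < (w : ℝ) ^ K := by
    have hwr : (n : ℝ) / (2 * q) ≤ w := by
      have h1 : n < q * (n / q + 1) := Nat.lt_mul_div_succ n (by omega)
      rw [← hw] at h1
      have h2 : (n : ℝ) < q * (w + 1) := by exact_mod_cast h1
      have h3 : (1 : ℝ) ≤ w := by exact_mod_cast hw1
      rw [div_le_iff₀ (by positivity)]
      nlinarith
    have hKr : (n : ℝ) / (44 * q * r) ≤ K := by
      have h0 : K = n / (q * (22 * r)) := by rw [hK, hw, Nat.div_div_eq_div_mul]
      have h1 : n < q * (22 * r) * (K + 1) := by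
        rw [h0]
        exact Nat.lt_mul_div_succ n (Nat.mul_pos hq1 (Nat.mul_pos (by norm_num) hr1))
      have h2 : (n : ℝ) < q * (22 * r) * (K + 1) := by exact_mod_cast h1
      have h3 : 44 * q * r ≤ n := by omega
      have h4 : (44 : ℝ) * q * r ≤ n := by exact_mod_cast h3
      rw [div_le_iff₀ (by positivity)]
      nlinarith
    have hx : th k * ((C' * (k * n) : ℕ) : ℝ) ≤ w / t := by
      have h1 : ((C' * (k * n) : ℕ) : ℝ) ≤ C' * (2 * k * n) := by
        have : C' * (k * n) ≤ C' * (2 * k * n) := Nat.mul_le_mul_left _ hN2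
        exact_mod_cast this
      calc th k * ((C' * (k * n) : ℕ) : ℝ) ≤ th k * (C' * (2 * k * n)) :=
            mul_le_mul_of_nonneg_left h1 (th_pos k).le
        _ = (k * th k) * (2 * C' * n) := by ring
        _ ≤ (1 / (4 * q * C' * t)) * (2 * C' * n) :=
            mul_le_mul_of_nonneg_right hk (by positivity)
        _ = (n / (2 * q)) / t := by field_simp; ring
        _ ≤ w / t := div_le_div_of_nonneg_right hwr ht0.le
    have hxK : (th k * ((C' * (k * n) : ℕ) : ℝ)) ^ K ≤ (w : ℝ) ^ K *
        Real.exp (-((2 * C' + 1) * (n / r))) := by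
      calc (th k * ((C' * (k * n) : ℕ) : ℝ)) ^ K ≤ (w / t) ^ K :=
            pow_le_pow_left₀ (by have := th_pos k; positivity) hx K
        _ = (w : ℝ) ^ K * Real.exp (-(K * (44 * q * (2 * C' + 1)))) := by
            rw [div_pow, ht, ← Real.exp_nat_mul, Real.exp_neg, div_eq_mul_inv]
        _ ≤ (w : ℝ) ^ K * Real.exp (-((2 * C' + 1) * (n / r))) := by
            apply mul_le_mul_of_nonneg_left _ (by positivity)
            apply Real.exp_le_exp.mpr
            have h1 := mul_le_mul_of_nonneg_right hKr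
              (show (0 : ℝ) ≤ 44 * q * (2 * C' + 1) by positivity)
            have h2 : (n : ℝ) / (44 * q * r) * (44 * q * (2 * C' + 1)) =
                (2 * C' + 1) * (n / r) := by
              field_simp
            linarith
    have he : Real.exp ((C' * (k * n) / r : ℕ) / k) ≤ Real.exp (2 * C' * (n / r)) := by
      apply Real.exp_le_exp.mpr
      have h1 : ((C' * (k * n) / r : ℕ) : ℝ) ≤ n / q := by
        have h2 : ((C' * (k * n) / r : ℕ) : ℝ) ≤ ((n / q : ℕ) : ℝ) := by exact_mod_cast hsr
        exact h2.trans Nat.cast_div_le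
      calc ((C' * (k * n) / r : ℕ) : ℝ) / k ≤ (n / q) / k :=
            div_le_div_of_nonneg_right h1 hk0.le
        _ = 2 * C' * (n / r) := by
            rw [hr]
            push_cast
            field_simp
    have hS : (S : ℝ) < Real.exp (n / r) := by
      refine hcon.trans_le ?_
      have h1 : (1 : ℝ) / r * n = n / r := by ring
      have h3 : (0 : ℝ) ≤ 1 / r * n := by positivity
      have h4 : (2 : ℝ) ≤ Real.exp 1 := by
        have := Real.add_one_le_exp (1 : ℝ)
        linarith
      calc (2 : ℝ) ^ ((1 : ℝ) / r * n)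
          ≤ (Real.exp 1) ^ ((1 : ℝ) / r * n) :=
            Real.rpow_le_rpow (by norm_num) h4 h3
        _ = Real.exp ((1 : ℝ) / r * n) := Real.exp_one_rpow _
        _ = Real.exp (n / r) := by rw [h1]
    have hS0 : (0 : ℝ) ≤ S := by positivity
    have hwK : (0 : ℝ) < (w : ℝ) ^ K := by
      have : (0 : ℝ) < w := by exact_mod_cast hw1
      positivity
    calc (S : ℝ) * Real.exp ((C' * (k * n) / r : ℕ) / k) * (th k * (C' * (k * n) : ℕ)) ^ K
        ≤ (S : ℝ) * Real.exp (2 * C' * (n / r)) *
          ((w : ℝ) ^ K * Real.exp (-((2 * C' + 1) * (n / r)))) := by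
          apply mul_le_mul _ hxK (by have := th_pos k; positivity) (by positivity)
          exact mul_le_mul_of_nonneg_left he hS0
      _ < Real.exp (n / r) * Real.exp (2 * C' * (n / r)) *
          ((w : ℝ) ^ K * Real.exp (-((2 * C' + 1) * (n / r)))) := by
          apply mul_lt_mul_of_pos_right _ (by positivity)
          exact mul_lt_mul_of_pos_right hS (Real.exp_pos _)
      _ = (w : ℝ) ^ K * (Real.exp (n / r) * Real.exp (2 * C' * (n / r)) *
          Real.exp (-((2 * C' + 1) * (n / r)))) := by ring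
      _ = (w : ℝ) ^ K := by
          rw [← Real.exp_add, ← Real.exp_add]
          have : (n : ℝ) / r + 2 * C' * (n / r) + -((2 * C' + 1) * (n / r)) = 0 := by ring
          rw [this, Real.exp_zero, mul_one]
  exact lift_no_ref (Prod.fst : Fin n × Fin k → Fin n) hnpos R b (n / 640000) hRe hR8 k hk1
    hcnt φ r (C' * (k * n)) a hr1
    (fun j => (hφ j).trans (Nat.mul_le_mul_right _ (by omega))) K w hKw hw1 hmain hah hstep

end H542.CL
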