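import Mathlib
import Pool.Agent.H542R2.Lift

/-!
The graph of the clique theorem: the parts are the groups of equations, the vertices of a part are
the assignments of the slots of the group.
-/

namespace H542.CL

open Finset

variable {V : Type} {k b : ℕ}

/-- the assignment of the slots given by an assignment of the variables of the system -/
def xof (σ : Fin k × Fin b → Option V) (z : V → Bool) (p : Fin k × Fin b) : Bool :=
  (σ p).elim false z

/-- the assignment `z` agrees with the vertex `u` on the slots of its part -/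
def Mat (σ : Fin k × Fin b → Option V) (z : V → Bool) (u : Fin k × (Fin b → Bool)) : Prop :=
  ∀ i, xof σ z (u.1, i) = u.2 i

/-- the graph -/
def gr {r M : ℕ} (σ : Fin k × Fin b → Option V) (grp : Fin k → Fin r → Fin M)
    (sat : (V → Bool) → Fin M → Prop) : SimpleGraph (Fin k × (Fin b → Bool)) where
  Adj u w := u.1 ≠ w.1 ∧ ∃ z : V → Bool, Mat σ z u ∧ Mat σ z w ∧ (∀ j, sat z (grp u.1 j)) ∧
    ∀ j, sat z (grp w.1 j)
  symm := ⟨by
    rintro u w ⟨h, z, h1, h2, h3, h4⟩
    exact ⟨h.symm, z, h2, h1, h4, h3⟩⟩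
  loopless := ⟨by
    rintro u ⟨h, _⟩
    exact h rfl⟩

/-- slots for the elements of a small set -/
theorem exists_slots (A : Finset V) (L : ℕ) (hA : A.card ≤ L) :
    ∃ e : Fin L → Option V, ∀ x ∈ A, ∃ t, e t = some x := by
  refine ⟨fun t => A.toList[t.val]?, fun x hx => ?_⟩
  have h1 : x ∈ A.toList := mem_toList.mpr hx
  obtain ⟨i, hi⟩ := List.mem_iff_getElem?.mp h1
  have h2 : i < A.toList.length := by
    by_contra hcon
    rw [List.getElem?_eq_none (by omega)] at hi
    exact absurd hi (by simp)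
  rw [length_toList] at h2
  exact ⟨⟨i, h2.trans_le hA⟩, hi⟩

/-- the slot map -/
theorem exists_sigma {r M : ℕ} (E : Fin M → Finset V) (grp : Fin k → Fin r → Fin M) (L : ℕ)
    (hL : 0 < L) (hE : ∀ v, (E v).card ≤ L) (hb : r * L ≤ b) :
    ∃ σ : Fin k × Fin b → Option V, ∀ g j x, x ∈ E (grp g j) → ∃ i, σ (g, i) = some x := by
  choose e he using fun v => exists_slots (E v) L (hE v)
  refine ⟨fun p => if h : p.2.val / L < r then
    e (grp p.1 ⟨p.2.val / L, h⟩) ⟨p.2.val % L, Nat.mod_lt _ hL⟩ else none, ?_⟩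
  intro g j x hx
  obtain ⟨t, ht⟩ := he (grp g j) x hx
  have h1 : j.val * L + t.val < b := by
    have h2 : (j.val + 1) * L ≤ r * L := Nat.mul_le_mul_right L j.isLt
    have h3 := t.isLt
    nlinarith
  refine ⟨⟨j.val * L + t.val, h1⟩, ?_⟩
  have h2 : (j.val * L + t.val) / L = j.val := by
    rw [mul_comm, Nat.mul_add_div hL, Nat.div_eq_of_lt t.isLt, add_zero]
  have h3 : (j.val * L + t.val) % L = t.val := by
    rw [mul_comm, Nat.mul_add_mod, Nat.mod_eq_of_lt t.isLt]
  have h4 : (⟨j.val * L + t.val, h1⟩ : Fin b).val / L < r := by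
    show (j.val * L + t.val) / L < r
    rw [h2]; exact j.isLt
  have e1 : (⟨(j.val * L + t.val) / L, h4⟩ : Fin r) = j := Fin.ext h2
  have e2 : (⟨(j.val * L + t.val) % L, Nat.mod_lt _ hL⟩ : Fin L) = t := Fin.ext h3
  show (if h : (j.val * L + t.val) / L < r then
    e (grp g ⟨(j.val * L + t.val) / L, h⟩) ⟨(j.val * L + t.val) % L, Nat.mod_lt _ hL⟩
      else none) = some x
  rw [dif_pos h4, e1, e2]
  exact ht

/-- Two assignments which agree with the same vertex agree on its slots. -/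
theorem mat_agree {σ : Fin k × Fin b → Option V} {z z' : V → Bool} {u : Fin k × (Fin b → Bool)}
    (h : Mat σ z u) (h' : Mat σ z' u) (i : Fin b) (x : V) (hx : σ (u.1, i) = some x) :
    z x = z' x := by
  have h1 := h i
  have h2 := h' i
  unfold xof at h1 h2
  rw [hx] at h1 h2
  simp only [Option.elim] at h1 h2
  rw [h1, h2]

/-- A clique gives an assignment which satisfies all the equations of its parts. -/
theorem clique_sat {r M : ℕ} (σ : Fin k × Fin b → Option V) (grp : Fin k → Fin r → Fin M)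
    (sat : (V → Bool) → Fin M → Prop) (E : Fin M → Finset V)
    (hσ : ∀ g j x, x ∈ E (grp g j) → ∃ i, σ (g, i) = some x)
    (hsat : ∀ v z z', (∀ x ∈ E v, z x = z' x) → sat z v → sat z' v)
    (s : Finset (Fin k × (Fin b → Bool))) (hs : (gr σ grp sat).IsClique (s : Set _))
    (h2 : 2 ≤ s.card) : ∃ z : V → Bool, ∀ u ∈ s, ∀ j, sat z (grp u.1 j) := by
  classical
  -- every vertex of the clique has a partner
  have hpart : ∀ u ∈ s, ∃ z0, Mat σ z0 u ∧ ∀ j, sat z0 (grp u.1 j) := by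
    intro u hu
    obtain ⟨w, hw, hne⟩ := exists_mem_ne (show 1 < s.card by omega) u
    obtain ⟨_, z, h1, _, h3, _⟩ := hs (mem_coe.mpr hu) (mem_coe.mpr hw) hne.symm
    exact ⟨z, h1, h3⟩
  have htwo : ∀ u ∈ s, ∀ u' ∈ s, ∃ z0, Mat σ z0 u ∧ Mat σ z0 u' := by
    intro u hu u' hu'
    by_cases hne : u = u'
    · subst hne
      obtain ⟨z0, h1, _⟩ := hpart u hu
      exact ⟨z0, h1, h1⟩
    · obtain ⟨_, z, h1, h2, _, _⟩ := hs (mem_coe.mpr hu) (mem_coe.mpr hu') hne
      exact ⟨z, h1, h2⟩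
  let z : V → Bool := fun x => decide (∃ u ∈ s, ∃ i, σ (u.1, i) = some x ∧ u.2 i = true)
  have hz : ∀ u ∈ s, ∀ i x, σ (u.1, i) = some x → z x = u.2 i := by
    intro u hu i x hx
    by_cases h : u.2 i = true
    · rw [h]
      exact decide_eq_true ⟨u, hu, i, hx, h⟩
    · have h' : u.2 i = false := by simpa using h
      rw [h']
      apply decide_eq_false
      rintro ⟨u', hu', i', hx', ht⟩
      obtain ⟨z0, h1, h2⟩ := htwo u hu u' hu'
      have e1 := h1 i
      have e2 := h2 i'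
      unfold xof at e1 e2
      rw [hx] at e1
      rw [hx'] at e2
      simp only [Option.elim] at e1 e2
      rw [← e1] at h
      rw [← e2] at ht
      exact h ht
  refine ⟨z, fun u hu j => ?_⟩
  obtain ⟨z0, h1, h3⟩ := hpart u hu
  refine hsat _ z0 z (fun x hx => ?_) (h3 j)
  obtain ⟨i, hi⟩ := hσ _ _ _ hx
  rw [hz u hu i x hi, ← h1 i]
  unfold xof
  rw [hi]
  rfl

/-- Every axiom of the encoding follows from a single equation. -/
theorem axiom_eq {r M : ℕ} (σ : Fin k × Fin b → Option V) (grp : Fin k → Fin r → Fin M)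
    (sat : (V → Bool) → Fin M → Prop) (E : Fin M → Finset V)
    (hσ : ∀ g j x, x ∈ E (grp g j) → ∃ i, σ (g, i) = some x)
    (hsat : ∀ v z z', (∀ x ∈ E v, z x = z' x) → sat z v → sat z' v) (v0 : Fin M)
    (u w : Fin k × (Fin b → Bool)) (hne : u.1 ≠ w.1) (hadj : ¬ (gr σ grp sat).Adj u w) :
    ∃ v, ∀ z, sat z v → ¬ (Mat σ z u ∧ Mat σ z w) := by
  classical
  by_cases h : ∃ z0, Mat σ z0 u ∧ Mat σ z0 w
  · obtain ⟨z0, h1, h2⟩ := h
    have h3 : ∃ j, ¬ sat z0 (grp u.1 j) ∨ ¬ sat z0 (grp w.1 j) := by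
      by_contra hcon
      push Not at hcon
      exact hadj ⟨hne, z0, h1, h2, fun j => (hcon j).1, fun j => (hcon j).2⟩
    obtain ⟨j, hj | hj⟩ := h3
    · refine ⟨grp u.1 j, fun z hz hm => hj ?_⟩
      refine hsat _ z z0 (fun x hx => ?_) hz
      obtain ⟨i, hi⟩ := hσ _ _ _ hx
      exact mat_agree hm.1 h1 i x hi
    · refine ⟨grp w.1 j, fun z hz hm => hj ?_⟩
      refine hsat _ z z0 (fun x hx => ?_) hz
      obtain ⟨i, hi⟩ := hσ _ _ _ hx
      exact mat_agree hm.2 h2 i x hi
  · exact ⟨v0, fun z _ hm => h ⟨z, hm⟩⟩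

end H542.CL
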