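import Mathlib
import Pool.Agent.H542R2.CL.Graph
import Pool.Agent.H542R2.PMNum
import Pool.Agent.H542R2.PMWalk
import Pool.Agent.H542R2.PMFinal

/-!
Exact statements of the parts of the second clique theorem (as `Prop`s, no proofs here).
-/

namespace H542.CL

open Finset H542PM

/-- The graph on `k` parts of `w` vertices: the vertex of part `g` chosen by the pointers `x` is
`vtx x g`; two vertices are adjacent if some pointers choose both and satisfy the equations of both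
groups. -/
def gr2 {P : Type} {k w r M : ℕ} (vtx : P → Fin k → Fin w) (grp : Fin k → Fin r → Fin M)
    (sat : P → Fin M → Prop) : SimpleGraph (Fin k × Fin w) where
  Adj u u' := u.1 ≠ u'.1 ∧ ∃ x, vtx x u.1 = u.2 ∧ vtx x u'.1 = u'.2 ∧
    (∀ j, sat x (grp u.1 j)) ∧ ∀ j, sat x (grp u'.1 j)
  symm := ⟨by
    rintro u u' ⟨h, x, h1, h2, h3, h4⟩
    exact ⟨h.symm, x, h2, h1, h4, h3⟩⟩
  loopless := ⟨by
    rintro u ⟨h, _⟩
    exact h rfl⟩

/-- the pointers `x` satisfy the equation `v` -/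
def sat2 {n κ M : ℕ} (R : Fin M → Fin n → ZMod 2) (rb : Fin M → ZMod 2)
    (h : Fin n → (Fin κ → Bool) → Bool) (x : Fin n → Fin κ → Bool) (v : Fin M) : Prop :=
  val R rb (yv h x) v = 0

/-- the vertex of part `g` determines the pointers of the variables of its equations -/
def Det {n κ k w r M : ℕ} (R : Fin M → Fin n → ZMod 2) (grp : Fin k → Fin r → Fin M)
    (vtx : (Fin n → Fin κ → Bool) → Fin k → Fin w) : Prop :=
  ∀ x x' g, vtx x g = vtx x' g → ∀ j i, R (grp g j) i ≠ 0 → x i = x' i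

/-- the predicate: not both vertices `u` and `u'` are chosen -/
def pairCl {k w : ℕ} (u u' : Fin k × Fin w) (z : Fin k → Fin w) : Bool :=
  !(decide (z u.1 = u.2) && decide (z u'.1 = u'.2))

/-- the axioms of `G has a clique with one vertex in each part` -/
def axs {k w : ℕ} (G : SimpleGraph (Fin k × Fin w)) : Set ((Fin k → Fin w) → Bool) :=
  {f | ∃ u u' : Fin k × Fin w, u.1 ≠ u'.1 ∧ ¬ G.Adj u u' ∧ f = pairCl u u'}

/-- CM1: the measure -/
def MeasProp : Prop := ∀ (n κ' k w r M q A u0 ρ : ℕ) (R : Fin M → Fin n → ZMod 2)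
    (rb : Fin M → ZMod 2) (grp : Fin k → Fin r → Fin M)
    (vtx : (Fin n → Fin (2 * κ') → Bool) → Fin k → Fin w)
    (B : Finset ((Fin k → Fin w) → Bool)) (θ : ℝ),
    Expd R u0 → 2 * ρ ≤ u0 → Det R grp vtx →
    (2 * (B.card + (k * w) ^ 2) + 1) ^ q ≤ A → 1 ≤ θ → θ ≤ 2 ^ κ' →
    4 * (n * Real.sqrt (θ / 2 ^ κ')) ≤ 1 →
    2 * ((((A : ℝ) * (2 ^ (2 * κ' * n) + 2) + 1) *
      (2 ^ (2 * κ') + 1) ^ n + 1) * 2 ^ n) ≤ Real.exp (θ / 2) →
    ∃ (h : Fin n → (Fin (2 * κ') → Bool) → Bool) (μ : (Fin k → Fin w) → ℝ),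
      Good μ (↑B : Set ((Fin k → Fin w) → Bool)) (axs (gr2 vtx grp (sat2 R rb h))) q
        (2 ^ (M + 1) * (θ / 2 ^ κ') ^ ρ)

/-- CM2: a clique gives pointers satisfying all the equations of its parts -/
def GlueProp : Prop := ∀ (n κ k w r M : ℕ) (R : Fin M → Fin n → ZMod 2)
    (rb : Fin M → ZMod 2) (grp : Fin k → Fin r → Fin M)
    (vtx : (Fin n → Fin κ → Bool) → Fin k → Fin w) (h : Fin n → (Fin κ → Bool) → Bool),
    Det R grp vtx → ∀ s : Finset (Fin k × Fin w),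
      (gr2 vtx grp (sat2 R rb h)).IsClique (s : Set (Fin k × Fin w)) → 2 ≤ s.card →
      ∃ x, ∀ u ∈ s, ∀ j, sat2 R rb h x (grp u.1 j)

/-- CM3: existence of the vertex map -/
def VtxProp : Prop := ∀ (n κ k w r M : ℕ) (R : Fin M → Fin n → ZMod 2)
    (grp : Fin k → Fin r → Fin M), (∀ v, (univ.filter fun i => R v i ≠ 0).card ≤ 8) →
    2 ^ (8 * r * κ) ≤ w → ∃ vtx : (Fin n → Fin κ → Bool) → Fin k → Fin w, Det R grp vtx

/-- CM4: depth and size -/
def DagNumProp : Prop := ∀ (a q D : ℕ) (S x : ℝ), 8 ≤ x → 1 ≤ a →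
    (a : ℝ) + 1 ≤ (2 : ℝ) ^ (x / 4) → (a : ℝ) * x + 2 ≤ q → 2 ≤ S →
    1 / 2 ≤ ((a : ℝ) + 1) ^ (2 * D) * (2 : ℝ) ^ (-x) →
    (∀ l d : ℕ, a * l + 2 ≤ q → D ≤ d * l →
      1 / 2 ≤ (2 * S) ^ d * (((a : ℝ) ^ l + 1) * (2 : ℝ) ^ (-x))) →
    x / 4 ≤ D * Real.logb 2 (a + 1) ∧
      x ^ 2 / 64 ≤ D * Real.logb 2 (a + 1) * Real.logb 2 S

end H542.CL
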