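import Mathlib
import Pool.Agent.H542R2.CL.Stubs2
import Pool.Agent.H542R2.PMCnf

/-!
CM1: the measure for the second clique theorem (adapted from `PMCnf.lean`).
-/

namespace H542.CL

open Finset H542PM

namespace CM1

variable {n κ k w : ℕ}

/-- equations only depend on their variables -/
theorem val_congr {M : ℕ} (R : Fin M → Fin n → ZMod 2) (rb : Fin M → ZMod 2)
    (h : Fin n → (Fin κ → Bool) → Bool) (v : Fin M) (x x' : Fin n → Fin κ → Bool)
    (hx : ∀ i, R v i ≠ 0 → x i = x' i) : val R rb (yv h x) v = val R rb (yv h x') v := by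
  unfold H542.val
  congr 1
  refine sum_congr rfl fun i _ => ?_
  by_cases hi : R v i = 0
  · rw [hi, zero_mul, zero_mul]
  · unfold yv
    rw [hx i hi]

/-- all the pair predicates -/
noncomputable def allP (k w : ℕ) : Finset ((Fin k → Fin w) → Bool) := by
  classical
  exact (univ : Finset ((Fin k × Fin w) × (Fin k × Fin w))).image fun p => pairCl p.1 p.2

theorem card_allP (k w : ℕ) : (allP k w).card ≤ (k * w) ^ 2 := by
  classical
  unfold allP
  refine card_image_le.trans (le_of_eq ?_)
  rw [card_univ, Fintype.card_prod, Fintype.card_prod, Fintype.card_fin, Fintype.card_fin, sq]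

theorem mem_allP (u u' : Fin k × Fin w) : pairCl u u' ∈ allP k w := by
  classical
  unfold allP
  rw [mem_image]
  exact ⟨(u, u'), mem_univ _, rfl⟩

open Classical in
/-- pointer tuples described by at most `q` literals over `G` -/
noncomputable def fam (vtx : (Fin n → Fin κ → Bool) → Fin k → Fin w)
    (G : Finset ((Fin k → Fin w) → Bool)) (q : ℕ) :
    Finset (Finset (Fin n → Fin κ → Bool)) :=
  (Fintype.piFinset fun _ : Fin q => insertNone (G ×ˢ (univ : Finset Bool))).image fun g =>
    univ.filter fun x => ∀ i, ∀ a, g i = some a → a.1 (vtx x) = a.2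

theorem card_fam (vtx : (Fin n → Fin κ → Bool) → Fin k → Fin w)
    (G : Finset ((Fin k → Fin w) → Bool)) (q : ℕ) :
    (fam vtx G q).card ≤ (2 * G.card + 1) ^ q := by
  classical
  unfold fam
  refine card_image_le.trans (le_of_eq ?_)
  rw [Fintype.card_piFinset]
  simp only [card_insertNone, card_product, card_univ, Fintype.card_bool, prod_const,
    Fintype.card_fin]
  rw [mul_comm]

theorem mem_fam (vtx : (Fin n → Fin κ → Bool) → Fin k → Fin w)
    (G : Finset ((Fin k → Fin w) → Bool)) (q : ℕ)
    (l : List (((Fin k → Fin w) → Bool) × Bool)) (hl : l.length ≤ q) (hG : ∀ a ∈ l, a.1 ∈ G) :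
    (univ.filter fun x : Fin n → Fin κ → Bool => vtx x ∈ pts l) ∈ fam vtx G q := by
  classical
  unfold fam
  rw [mem_image]
  refine ⟨fun i => l[(i : ℕ)]?, ?_, ?_⟩
  · rw [Fintype.mem_piFinset]
    intro i
    rw [mem_insertNone]
    intro a ha
    have h1 : a ∈ l := List.mem_of_getElem? (Option.mem_def.mp ha)
    rw [mem_product]
    exact ⟨hG a h1, mem_univ _⟩
  · ext x
    rw [mem_filter, mem_filter, mem_pts]
    constructor
    · rintro ⟨_, h⟩
      refine ⟨mem_univ _, fun a ha => ?_⟩
      obtain ⟨m, hm, hma⟩ := List.getElem_of_mem ha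
      apply h ⟨m, by omega⟩ a
      show l[m]? = some a
      rw [List.getElem?_eq_getElem hm, hma]
    · rintro ⟨_, h⟩
      exact ⟨mem_univ _, fun i a ha => h a (List.mem_of_getElem? ha)⟩

theorem pairCl_false {u u' : Fin k × Fin w} {z : Fin k → Fin w} (h : pairCl u u' z = false) :
    z u.1 = u.2 ∧ z u'.1 = u'.2 := by
  unfold pairCl at h
  simpa using h

end CM1

open CM1 in
theorem cm1 : MeasProp := by
  classical
  intro n κ' k w r M q A u0 ρ R rb grp vtx B θ hRe hρ hdet hA hθ hθL hnL hcard
  let G : Finset ((Fin k → Fin w) → Bool) := B ∪ allP k w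
  have hGc : G.card ≤ B.card + (k * w) ^ 2 :=
    (card_union_le _ _).trans (Nat.add_le_add_left (card_allP _ _) _)
  have hFam : ((CM1.fam vtx G q).card : ℝ) ≤ A := by
    have h1 : (CM1.fam vtx G q).card ≤ A := by
      refine (CM1.card_fam vtx G q).trans (le_trans ?_ hA)
      apply Nat.pow_le_pow_left
      omega
    exact_mod_cast h1
  have hKc : Fintype.card (Fin (2 * κ') → Bool) = (2 ^ κ') ^ 2 := by
    rw [Fintype.card_fun, Fintype.card_bool, Fintype.card_fin, ← pow_mul, mul_comm]
  have hXc : (Fintype.card (Fin n → Fin (2 * κ') → Bool) : ℝ) = 2 ^ (2 * κ' * n) := by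
    rw [Fintype.card_fun, hKc, Fintype.card_fin]
    push_cast
    rw [← pow_mul, ← pow_mul]
    congr 1
    ring
  have hXpos : (0 : ℝ) < Fintype.card (Fin n → Fin (2 * κ') → Bool) := by
    rw [hXc]; positivity
  obtain ⟨h, htot, hpos, hnull⟩ := main_measure (n := n) (M := M)
    (Kt := Fin (2 * κ') → Bool) (L := 2 ^ κ') (Nat.one_le_two_pow) hKc (R := R) (b := rb)
    (u0 := u0) (r := ρ) hRe hρ hθ
    (by push_cast; exact hθL) (by push_cast; exact hnL) (CM1.fam vtx G q) (by
      rw [hKc]
      refine le_trans ?_ hcard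
      apply mul_le_mul_of_nonneg_left _ (by norm_num)
      apply mul_le_mul_of_nonneg_right _ (by positivity)
      apply add_le_add_left
      rw [hXc]
      have e1 : ((((2 ^ κ') ^ 2 : ℕ) : ℝ) + 1) = 2 ^ (2 * κ') + 1 := by
        push_cast
        rw [← pow_mul, mul_comm κ' 2]
      rw [e1]
      apply mul_le_mul_of_nonneg_right _ (by positivity)
      apply add_le_add_left
      exact mul_le_mul_of_nonneg_right hFam (by positivity))
  let μ : (Fin k → Fin w) → ℝ := fun z =>
    (∑ x ∈ univ.filter (fun x => vtx x = z), dens R rb h ρ x) /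
      Fintype.card (Fin n → Fin (2 * κ') → Bool)
  have hms : ∀ l, ms μ l = (∑ x ∈ univ.filter (fun x => vtx x ∈ pts l),
      dens R rb h ρ x) / Fintype.card (Fin n → Fin (2 * κ') → Bool) := by
    intro l
    unfold ms
    simp only [μ]
    rw [← sum_div]
    congr 1
    rw [← Finset.sum_fiberwise_of_maps_to (s := univ.filter fun x => vtx x ∈ pts l)
      (t := pts l) (g := fun x => vtx x) (fun x hx => (mem_filter.mp hx).2)]
    refine sum_congr rfl fun z hz => sum_congr ?_ fun _ _ => rfl
    ext x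
    simp only [mem_filter, mem_univ, true_and]
    constructor
    · intro h1
      exact ⟨by rw [h1]; exact hz, h1⟩
    · intro h1
      exact h1.2
  have hmemG : ∀ l : List (((Fin k → Fin w) → Bool) × Bool),
      (∀ a ∈ l, a.1 ∈ (↑B : Set ((Fin k → Fin w) → Bool)) ∨
        a.1 ∈ axs (gr2 vtx grp (sat2 R rb h))) → ∀ a ∈ l, a.1 ∈ G := by
    intro l hl a ha
    rcases hl a ha with h1 | ⟨u, u', _, _, h1⟩
    · exact mem_union_left _ h1
    · rw [h1]
      exact mem_union_right _ (mem_allP u u')
  have hηeq : (2 : ℝ) ^ (M + 1) * (θ / ((2 ^ κ' : ℕ) : ℝ)) ^ ρ =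
      2 ^ (M + 1) * (θ / 2 ^ κ') ^ ρ := by
    push_cast
    rfl
  refine ⟨h, μ, ⟨by positivity, ?_, ?_, ?_⟩⟩
  · have h1 := hms []
    rw [ms_nil] at h1
    rw [h1]
    have h2 : (univ.filter fun x : Fin n → Fin (2 * κ') → Bool => vtx x ∈ pts []) = univ := by
      ext x
      simp [mem_pts]
    rw [h2, le_div_iff₀ hXpos]
    linarith
  · intro l hl hmem
    rw [hms, le_div_iff₀ hXpos, ← hηeq]
    have h1 := hpos _ (CM1.mem_fam vtx G q l hl (hmemG l hmem))
    linarith
  · intro l hl hmem c hc hcz
    obtain ⟨u, u', hne, hadj, rfl⟩ := hc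
    rw [hms, div_le_iff₀ hXpos, ← hηeq]
    by_cases hex : ∃ x0, vtx x0 ∈ pts l
    · obtain ⟨x0, hx0⟩ := hex
      obtain ⟨a1, a2⟩ := pairCl_false (hcz _ hx0)
      have h3 : ∃ j, ¬ sat2 R rb h x0 (grp u.1 j) ∨ ¬ sat2 R rb h x0 (grp u'.1 j) := by
        by_contra hcon
        push Not at hcon
        exact hadj ⟨hne, x0, a1, a2, fun j => (hcon j).1, fun j => (hcon j).2⟩
      obtain ⟨j, hj⟩ := h3
      rcases hj with hj | hj
      · refine (le_abs_self _).trans (hnull _ (CM1.mem_fam vtx G q l hl (hmemG l hmem))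
          (grp u.1 j) ?_)
        intro x hx
        rw [mem_filter] at hx
        obtain ⟨b1, _⟩ := pairCl_false (hcz _ hx.2)
        rw [CM1.val_congr R rb h _ x x0 (fun i hi => hdet x x0 u.1 (by rw [b1, a1]) j i hi)]
        exact hj
      · refine (le_abs_self _).trans (hnull _ (CM1.mem_fam vtx G q l hl (hmemG l hmem))
          (grp u'.1 j) ?_)
        intro x hx
        rw [mem_filter] at hx
        obtain ⟨_, b2⟩ := pairCl_false (hcz _ hx.2)
        rw [CM1.val_congr R rb h _ x x0 (fun i hi => hdet x x0 u'.1 (by rw [b2, a2]) j i hi)]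
        exact hj
    · have h0 : (univ.filter fun x : Fin n → Fin (2 * κ') → Bool => vtx x ∈ pts l) = ∅ := by
        ext x
        simp only [mem_filter, mem_univ, true_and, notMem_empty, iff_false]
        exact fun hx => hex ⟨x, hx⟩
      rw [h0, sum_empty]
      positivity

end H542.CL
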