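import Mathlib
import Pool.Agent.H542R2.CL.Stubs2

/-!
CM2: a clique gives pointers satisfying all the equations of its parts.
-/

namespace H542.CL

open Finset H542PM

theorem sat2_congr {n κ M : ℕ} (R : Fin M → Fin n → ZMod 2) (rb : Fin M → ZMod 2)
    (h : Fin n → (Fin κ → Bool) → Bool) (v : Fin M) (x x' : Fin n → Fin κ → Bool)
    (hx : ∀ i, R v i ≠ 0 → x i = x' i) : val R rb (yv h x) v = val R rb (yv h x') v := by
  unfold H542.val
  congr 1
  refine sum_congr rfl fun i _ => ?_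
  by_cases hi : R v i = 0
  · rw [hi, zero_mul, zero_mul]
  · unfold yv
    rw [hx i hi]

theorem cm2 : GlueProp := by
  intro n κ k w r M R rb grp vtx h hdet s hs h2
  classical
  have hpart : ∀ u ∈ s, ∃ x, vtx x u.1 = u.2 ∧ ∀ j, sat2 R rb h x (grp u.1 j) := by
    intro u hu
    obtain ⟨w, hw, hne⟩ := exists_mem_ne (show 1 < s.card by omega) u
    obtain ⟨_, x, h1, _, h3, _⟩ := hs (mem_coe.mpr hu) (mem_coe.mpr hw) hne.symm
    exact ⟨x, h1, h3⟩
  have htwo : ∀ u ∈ s, ∀ u' ∈ s, ∃ y, vtx y u.1 = u.2 ∧ vtx y u'.1 = u'.2 := by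
    intro u hu u' hu'
    by_cases hne : u = u'
    · subst hne
      obtain ⟨x, h1, _⟩ := hpart u hu
      exact ⟨x, h1, h1⟩
    · obtain ⟨_, x, h1, h2, _, _⟩ := hs (mem_coe.mpr hu) (mem_coe.mpr hu') hne
      exact ⟨x, h1, h2⟩
  choose! X hX1 hX2 using hpart
  let x : Fin n → Fin κ → Bool := fun i =>
    if hi : ∃ u, u ∈ s ∧ ∃ j, R (grp u.1 j) i ≠ 0 then X hi.choose i else fun _ => false
  have hx : ∀ u ∈ s, ∀ j i, R (grp u.1 j) i ≠ 0 → x i = X u i := by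
    intro u hu j i hi
    have hex : ∃ u, u ∈ s ∧ ∃ j, R (grp u.1 j) i ≠ 0 := ⟨u, hu, j, hi⟩
    have e : x i = X hex.choose i := dif_pos hex
    obtain ⟨hu', j', hj'⟩ := hex.choose_spec
    obtain ⟨y, hy1, hy2⟩ := htwo u hu _ hu'
    have a1 := hdet (X u) y u.1 (by rw [hX1 u hu, hy1]) j i hi
    have a2 := hdet (X hex.choose) y hex.choose.1 (by rw [hX1 _ hu', hy2]) j' i hj'
    rw [e, a1, a2]
  refine ⟨x, fun u hu j => ?_⟩
  have h0 := hX2 u hu j
  unfold sat2 at h0 ⊢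
  rw [sat2_congr R rb h _ x (X u) (fun i hi => hx u hu j i hi)]
  exact h0

end H542.CL
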