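import Mathlib
import Pool.Agent.H542R2.CL.Stubs2

namespace H542.CL

open Finset H542PM

theorem cm3 : VtxProp := by
  classical
  intro n κ k w r M R grp h8 hw
  set D : Fin k → Finset (Fin n) := fun g => univ.filter fun i => ∃ j, R (grp g j) i ≠ 0 with hD
  have hcard : ∀ g, (D g).card ≤ 8 * r := by
    intro g
    have h1 : D g ⊆ (univ : Finset (Fin r)).biUnion
        (fun j => univ.filter fun i => R (grp g j) i ≠ 0) := by
      intro i hi
      simp only [hD, mem_filter, mem_univ, true_and] at hi
      obtain ⟨j, hj⟩ := hi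
      simp only [mem_biUnion, mem_filter, mem_univ, true_and]
      exact ⟨j, hj⟩
    calc (D g).card ≤ _ := card_le_card h1
      _ ≤ ∑ j : Fin r, (univ.filter fun i => R (grp g j) i ≠ 0).card := card_biUnion_le
      _ ≤ ∑ _j : Fin r, 8 := sum_le_sum fun j _ => h8 (grp g j)
      _ = 8 * r := by simp [mul_comm]
  have hemb : ∀ g, Nonempty ((D g → Fin κ → Bool) ↪ Fin w) := by
    intro g
    apply Function.Embedding.nonempty_of_card_le
    have e1 : Fintype.card (D g → Fin κ → Bool) = 2 ^ (κ * (D g).card) := by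
      rw [Fintype.card_fun, Fintype.card_fun, Fintype.card_bool, Fintype.card_fin,
        Fintype.card_coe, ← pow_mul]
    rw [e1, Fintype.card_fin]
    refine le_trans (Nat.pow_le_pow_right (by norm_num) ?_) hw
    calc κ * (D g).card ≤ κ * (8 * r) := Nat.mul_le_mul_left _ (hcard g)
      _ = 8 * r * κ := by ring
  let emb : ∀ g, ((D g → Fin κ → Bool) ↪ Fin w) := fun g => (hemb g).some
  refine ⟨fun x g => emb g (fun i => x i.1), ?_⟩
  intro x x' g hg j i hi
  have h1 := (emb g).injective hg
  have hiD : i ∈ D g := by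
    simp only [hD, mem_filter, mem_univ, true_and]
    exact ⟨j, hi⟩
  exact congrFun h1 ⟨i, hiD⟩

end H542.CL
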