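import Mathlib
import Pool.Agent.H542R2.CL.Stubs2
import Pool.Agent.H542R2.CL.CL1
import Pool.Agent.H542R2.CL.CL2
import Pool.Agent.H542R2.CL.CL3
import Pool.Agent.H542R2.CL.CM1
import Pool.Agent.H542R2.CL.CM2
import Pool.Agent.H542R2.CL.CM3

/-!
The graph and the signed measure, with all parameters.
-/

namespace H542.CL

open Finset H542PM

theorem ev_lin (K : ℕ) : ∃ s0 : ℕ, ∀ s ≥ s0, K * s ≤ 2 ^ s := by
  obtain ⟨l0, hl0⟩ := ev_sq K
  refine ⟨l0, fun s hs => le_trans ?_ (hl0 s hs)⟩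
  apply Nat.mul_le_mul_left
  nlinarith

theorem yv_val {n κ M : ℕ} (R : Fin M → Fin n → ZMod 2) (rb : Fin M → ZMod 2)
    (h : Fin n → (Fin κ → Bool) → Bool) (x : Fin n → Fin κ → Bool) (v : Fin M)
    (hs : sat2 R rb h x v) : val R rb (yv h x) v = 0 := hs

/-- error of the measure -/
theorem eta2 (nb s : ℕ) (hnb : 10240000 ≤ nb) (hs : 3200000 ≤ s) :
    (2 : ℝ) ^ (4 * nb + 1) * (((2 : ℝ) ^ s) ^ 8 / 2 ^ (16 * s)) ^ (nb / 640000 / 2) ≤
      (2 : ℝ) ^ (-((s : ℝ) * nb / 640000)) := by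
  obtain ⟨ρ, hρ⟩ : ∃ ρ, ρ = nb / 640000 / 2 := ⟨_, rfl⟩
  rw [← hρ]
  have h1 : nb ≤ 2560000 * ρ := by
    rw [hρ, Nat.div_div_eq_div_mul]
    have := Nat.lt_mul_div_succ nb (show 0 < 640000 * 2 by norm_num)
    omega
  have e1 : ((2 : ℝ) ^ s) ^ 8 / 2 ^ (16 * s) = (2 : ℝ) ^ (-(8 * (s : ℝ))) := by
    rw [Real.rpow_neg (by norm_num), ← pow_mul]
    have h2 : (2 : ℝ) ^ (8 * (s : ℝ)) = 2 ^ (8 * s) := by
      rw [← Real.rpow_natCast]
      congr 1
      push_cast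
      ring
    rw [h2]
    have h3 : (2 : ℝ) ^ (16 * s) = 2 ^ (8 * s) * 2 ^ (8 * s) := by
      rw [← pow_add]
      congr 1
      ring
    rw [h3, mul_comm s 8]
    have h4 : (0 : ℝ) < 2 ^ (8 * s) := by positivity
    field_simp
  rw [e1, ← Real.rpow_natCast, ← Real.rpow_natCast, ← Real.rpow_mul (by norm_num),
    ← Real.rpow_add (by norm_num)]
  apply Real.rpow_le_rpow_of_exponent_le (by norm_num)
  have h1R : (nb : ℝ) ≤ 2560000 * ρ := by exact_mod_cast h1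
  have hnbR : (10240000 : ℝ) ≤ nb := by exact_mod_cast hnb
  have hsR : (3200000 : ℝ) ≤ s := by exact_mod_cast hs
  push_cast
  have h5 : (s : ℝ) * nb ≤ s * (2560000 * ρ) := mul_le_mul_of_nonneg_left h1R (by linarith)
  have h6 : (3200000 : ℝ) * nb ≤ s * nb := mul_le_mul_of_nonneg_right hsR (by linarith)
  have h7 : (s : ℝ) * nb / 640000 = (s * nb) * (1 / 640000) := by ring
  rw [h7]
  nlinarith

theorem main_good (ε : ℝ) (hε : 0 < ε) : ∃ δ c : ℝ, 0 < δ ∧ 0 < c ∧ ∀ k : ℕ, 1 < ε * k →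
    ∃ n0 : ℕ, ∀ w ≥ n0, ∃ (T : ℕ) (x : ℝ), (w : ℝ) ^ δ ≤ T ∧ 8 ≤ x ∧
      c * (k * Real.logb 2 w) ≤ x ∧ 2 * ((T : ℝ) + 2) ^ 2 ≤ (2 : ℝ) ^ (x / 4) ∧
      (T : ℝ) * x + 2 ≤ ((T ^ 2 + 4 : ℕ) : ℝ) ∧ 4 ≤ T ∧
      ∀ B : Finset ((Fin k → Fin w) → Bool), B.card ≤ 2 ^ (T ^ 2 + T) →
        ∃ (G : SimpleGraph (Fin k × Fin w)) (μ : (Fin k → Fin w) → ℝ),
          (∀ u u', G.Adj u u' → u.1 ≠ u'.1) ∧
          (∀ s : Finset (Fin k × Fin w), G.IsClique (s : Set (Fin k × Fin w)) →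
            (s.card : ℝ) < ε * k) ∧
          Good μ (↑B : Set ((Fin k → Fin w) → Bool)) (axs G) (T ^ 2 + 4) (2 ^ (-x)) := by
  classical
  obtain ⟨r, hr⟩ : ∃ r, r = 192 * 10240001 + ⌈24 / ε⌉₊ := ⟨_, rfl⟩
  have hrpos : 0 < r := by rw [hr]; omega
  have hrR0 : (0 : ℝ) < r := by exact_mod_cast hrpos
  refine ⟨1 / (512 * r), ε / 62914560000, by positivity, by positivity, fun k hk => ?_⟩
  have hkR : (0 : ℝ) < k := by
    by_contra hcon
    push Not at hcon
    nlinarith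
  have hkpos : 0 < k := by exact_mod_cast hkR
  have hr1 : (192 * 10240001 : ℝ) ≤ r := by
    have : 192 * 10240001 ≤ r := by omega
    exact_mod_cast this
  have hr24 : 24 / ε ≤ r := by
    refine (Nat.le_ceil _).trans ?_
    have : ⌈24 / ε⌉₊ ≤ r := by omega
    exact_mod_cast this
  have hr24' : 24 ≤ r * ε := by rwa [div_le_iff₀ hε] at hr24
  obtain ⟨n, hn⟩ : ∃ n, n = ⌊ε * r * k / 96⌋₊ := ⟨_, rfl⟩
  have hx2 : (2 : ℝ) * 10240001 ≤ ε * r * k / 96 := by
    rw [le_div_iff₀ (by norm_num)]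
    have h1 : (r : ℝ) * 1 ≤ r * (ε * k) := mul_le_mul_of_nonneg_left hk.le hrR0.le
    nlinarith
  have hnle : (n : ℝ) ≤ ε * r * k / 96 := by
    rw [hn]
    exact Nat.floor_le (by positivity)
  have hngt : ε * r * k / 96 < n + 1 := by
    rw [hn]
    exact Nat.lt_floor_add_one _
  have hnR : (10240000 : ℝ) ≤ n := by linarith
  have hnbig : 10240000 ≤ n := by exact_mod_cast hnR
  have hnpos : 0 < n := by omega
  have hrk : ε * (r * k) ≤ 192 * n := by nlinarith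
  obtain ⟨m, hm⟩ : ∃ m, m = ⌈ε * k⌉₊ := ⟨_, rfl⟩
  have hmge : ε * k ≤ m := by rw [hm]; exact Nat.le_ceil _
  have hmlt : (m : ℝ) < ε * k + 1 := by rw [hm]; exact Nat.ceil_lt_add_one (by positivity)
  have hdes : 12 * (4 * n + k) ≤ r * m := by
    have h1 : (12 : ℝ) * (4 * n + k) ≤ r * m := by
      have h2 : 48 * (n : ℝ) ≤ ε * r * k / 2 := by linarith
      have h3 : 12 * (k : ℝ) ≤ ε * r * k / 2 := by nlinarith
      have h4 : ε * r * k ≤ r * m := by nlinarith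
      linarith
    exact_mod_cast h1
  obtain ⟨R, hR8, hRe⟩ := cl1 n (4 * n) hnpos le_rfl
  obtain ⟨rb, hrhs⟩ := cl2 n R hnpos
  obtain ⟨grp, hgrp⟩ := cl3 k r (4 * n) m (by omega) hkpos hdes
  obtain ⟨s0, hs0⟩ := ev_lin (128 * n + 1024 * r + 2 * k + 1)
  refine ⟨2 ^ (256 * r * (s0 + 3200000)), fun w hw => ?_⟩
  -- the scale
  have hwpos : w ≠ 0 := (lt_of_lt_of_le (pow_pos two_pos _) hw).ne'
  obtain ⟨s, hs⟩ : ∃ s, s = Nat.log 2 w / (256 * r) := ⟨_, rfl⟩
  have h256 : 0 < 256 * r := by omega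
  have hsge : s0 + 3200000 ≤ s := by
    rw [hs, Nat.le_div_iff_mul_le h256, mul_comm]
    exact (Nat.le_log_iff_pow_le (by norm_num) hwpos).mpr hw
  have hs32 : 3200000 ≤ s := by omega
  have hsR : (3200000 : ℝ) ≤ s := by exact_mod_cast hs32
  have hTs := hs0 s (by omega)
  have hwlow : 2 ^ (8 * r * (2 * (16 * s))) ≤ w := by
    have h1 : 8 * r * (2 * (16 * s)) ≤ Nat.log 2 w := by
      have := Nat.div_mul_le_self (Nat.log 2 w) (256 * r)
      rw [← hs] at this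
      calc 8 * r * (2 * (16 * s)) = s * (256 * r) := by ring
        _ ≤ _ := this
    exact (Nat.pow_le_pow_right (by norm_num) h1).trans (Nat.pow_log_le_self 2 hwpos)
  have hwup : w ≤ 2 ^ (512 * r * s) := by
    have h1 : Nat.log 2 w + 1 ≤ 512 * r * s := by
      have h2 := Nat.lt_mul_div_succ (Nat.log 2 w) h256
      rw [← hs] at h2
      have h3 : 256 * r * (s + 1) ≤ 256 * r * (2 * s) := Nat.mul_le_mul_left _ (by omega)
      calc Nat.log 2 w + 1 ≤ 256 * r * (s + 1) := h2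
        _ ≤ 256 * r * (2 * s) := h3
        _ = 512 * r * s := by ring
    exact ((Nat.lt_pow_succ_log_self (by norm_num) w).le).trans
      (Nat.pow_le_pow_right (by norm_num) h1)
  obtain ⟨T, hT⟩ : ∃ T, T = 2 ^ s := ⟨_, rfl⟩
  rw [← hT] at hTs
  have hT32 : 3200000 ≤ T := by
    rw [hT]
    exact hs32.trans (Nat.lt_two_pow_self).le
  have hTR : (3200000 : ℝ) ≤ T := by exact_mod_cast hT32
  have hTsR : (128 * n + 1024 * r + 2 * k + 1 : ℝ) * s ≤ T := by exact_mod_cast hTs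
  have hTRe : (T : ℝ) = 2 ^ s := by rw [hT]; push_cast; rfl
  have hnR0 : (0 : ℝ) ≤ n := by positivity
  have hsR0 : (0 : ℝ) ≤ s := by positivity
  have hns : 128 * ((n : ℝ) * s) ≤ T := by nlinarith
  obtain ⟨vtx, hvtx⟩ := cm3 n (2 * (16 * s)) k w r (4 * n) R grp hR8 hwlow
  obtain ⟨x, hx⟩ : ∃ x : ℝ, x = (s : ℝ) * n / 640000 := ⟨_, rfl⟩
  have hsn : (3200000 : ℝ) * 10240000 ≤ s * n := by nlinarith
  refine ⟨T, x, ?_, ?_, ?_, ?_, ?_, by omega, ?_⟩
  · -- w ^ δ ≤ T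
    have h1 : (w : ℝ) ≤ (2 : ℝ) ^ ((512 : ℝ) * r * s) := by
      have h2 : (w : ℝ) ≤ (2 : ℝ) ^ (512 * r * s) := by exact_mod_cast hwup
      refine h2.trans (le_of_eq ?_)
      rw [← Real.rpow_natCast]
      congr 1
      push_cast
      ring
    calc (w : ℝ) ^ ((1 : ℝ) / (512 * r)) ≤ ((2 : ℝ) ^ ((512 : ℝ) * r * s)) ^ ((1 : ℝ) / (512 * r)) :=
          Real.rpow_le_rpow (by positivity) h1 (by positivity)
      _ = (2 : ℝ) ^ (s : ℝ) := by
          rw [← Real.rpow_mul (by norm_num)]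
          congr 1
          field_simp
      _ = T := by rw [Real.rpow_natCast, hTRe]
  · rw [hx, le_div_iff₀ (by norm_num)]
    linarith
  · -- c k log w ≤ x
    have h1 : Real.logb 2 w ≤ 512 * r * s := by
      rw [Real.logb_le_iff_le_rpow (by norm_num) (by positivity)]
      have h2 : (w : ℝ) ≤ (2 : ℝ) ^ (512 * r * s) := by exact_mod_cast hwup
      refine h2.trans (le_of_eq ?_)
      rw [← Real.rpow_natCast]
      congr 1
      push_cast
      ring
    calc ε / 62914560000 * (k * Real.logb 2 w) ≤ ε / 62914560000 * (k * (512 * r * s)) := by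
          apply mul_le_mul_of_nonneg_left _ (by positivity)
          exact mul_le_mul_of_nonneg_left h1 hkR.le
      _ = (512 * s / 62914560000) * (ε * (r * k)) := by ring
      _ ≤ (512 * s / 62914560000) * (192 * n) :=
          mul_le_mul_of_nonneg_left hrk (by positivity)
      _ = x := by rw [hx]; ring
  · -- 2 (T+2)^2 ≤ 2^(x/4)
    have h1 : (4 : ℝ) * s ≤ x / 4 := by
      rw [hx]
      have : (s : ℝ) * 10240000 ≤ s * n := mul_le_mul_of_nonneg_left hnR hsR0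
      have h2 : (s : ℝ) * n / 640000 / 4 = (s * n) * (1 / 2560000) := by ring
      rw [h2]
      nlinarith
    have h2 : (T : ℝ) ^ 4 ≤ (2 : ℝ) ^ (x / 4) := by
      calc (T : ℝ) ^ 4 = (2 : ℝ) ^ (4 * (s : ℝ)) := by
            rw [hTRe, ← pow_mul, ← Real.rpow_natCast]
            congr 1
            push_cast
            ring
        _ ≤ _ := Real.rpow_le_rpow_of_exponent_le (by norm_num) h1
    refine le_trans ?_ h2
    nlinarith [sq_nonneg ((T : ℝ) ^ 2), sq_nonneg (T : ℝ), mul_le_mul hTR hTR (by norm_num) (by linarith : (0:ℝ) ≤ T)]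
  · -- T x + 2 ≤ T^2 + 4
    have h1 : x ≤ T := by
      rw [hx]
      have : (s : ℝ) * n / 640000 ≤ 128 * ((n : ℝ) * s) := by
        rw [div_le_iff₀ (by norm_num)]
        nlinarith
      linarith
    push_cast
    nlinarith
  · intro B hB
    have hTN : (2 * (B.card + (k * w) ^ 2) + 1) ^ (T ^ 2 + 4) ≤
        2 ^ ((T ^ 2 + T + 3) * (T ^ 2 + 4)) := by
      have h1 : (k * w) ^ 2 ≤ 2 ^ T := by
        have h2 : k * w ≤ 2 ^ (k + 512 * r * s) := by
          rw [pow_add]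
          exact Nat.mul_le_mul (Nat.lt_two_pow_self).le hwup
        calc (k * w) ^ 2 ≤ (2 ^ (k + 512 * r * s)) ^ 2 := Nat.pow_le_pow_left h2 2
          _ = 2 ^ (2 * k + 1024 * r * s) := by rw [← pow_mul]; congr 1; ring
          _ ≤ 2 ^ T := by
              apply Nat.pow_le_pow_right (by norm_num)
              refine le_trans ?_ hTs
              have h3 : 2 * k ≤ 2 * k * s := Nat.le_mul_of_pos_right _ (by omega)
              nlinarith
      have h4 : 2 ^ T ≤ 2 ^ (T ^ 2 + T) := Nat.pow_le_pow_right (by norm_num) (by omega)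
      have h5 : 2 * (B.card + (k * w) ^ 2) + 1 ≤ 2 ^ (T ^ 2 + T + 3) := by
        have h6 : 2 ^ (T ^ 2 + T + 3) = 8 * 2 ^ (T ^ 2 + T) := by ring
        have h7 : 1 ≤ 2 ^ (T ^ 2 + T) := Nat.one_le_two_pow
        omega
      calc (2 * (B.card + (k * w) ^ 2) + 1) ^ (T ^ 2 + 4)
          ≤ (2 ^ (T ^ 2 + T + 3)) ^ (T ^ 2 + 4) := Nat.pow_le_pow_left h5 _
        _ = _ := by rw [← pow_mul]
    have hcount := count_le (N := 32 * s * n) (n := n) (κ' := 16 * s)
      (a := (T ^ 2 + T + 3) * (T ^ 2 + 4)) (by ring_nf; exact le_rfl)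
      (by nlinarith) (2 ^ ((T ^ 2 + T + 3) * (T ^ 2 + 4))) rfl (((2 : ℝ) ^ s) ^ 8) (by
        rw [← hTRe]
        push_cast
        have h1 : (T : ℝ) ^ 2 + T + 3 ≤ 2 * (T : ℝ) ^ 2 := by nlinarith
        have h2 : (T : ℝ) ^ 2 + 4 ≤ 2 * (T : ℝ) ^ 2 := by nlinarith
        have h3 : ((T : ℝ) ^ 2 + T + 3) * ((T : ℝ) ^ 2 + 4) ≤ 4 * (T : ℝ) ^ 4 := by
          calc ((T : ℝ) ^ 2 + T + 3) * ((T : ℝ) ^ 2 + 4) ≤ (2 * (T : ℝ) ^ 2) * (2 * (T : ℝ) ^ 2) :=
                mul_le_mul h1 h2 (by positivity) (by positivity)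
            _ = 4 * (T : ℝ) ^ 4 := by ring
        have h4 : (4 : ℝ) * (32 * s * n) ≤ T := by nlinarith
        have h5 : (T : ℝ) ≤ (T : ℝ) ^ 4 := le_self_pow₀ (by linarith) (by norm_num)
        have h6 : (18 : ℝ) ≤ (T : ℝ) ^ 4 := by linarith
        have h7 : (T : ℝ) ^ 8 = (T : ℝ) ^ 4 * (T : ℝ) ^ 4 := by ring
        rw [h7]
        have h8 : (18 : ℝ) * (T : ℝ) ^ 4 ≤ (T : ℝ) ^ 4 * (T : ℝ) ^ 4 :=
          mul_le_mul_of_nonneg_right h6 (by positivity)
        linarith)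
    have h16 : (2 : ℝ) ^ (16 * s) = ((2 : ℝ) ^ s) ^ 8 * ((2 : ℝ) ^ s) ^ 8 := by
      rw [← pow_mul, ← pow_add]
      congr 1
      ring
    have h28 : (1 : ℝ) ≤ ((2 : ℝ) ^ s) ^ 8 := by
      rw [← pow_mul]
      exact one_le_pow₀ (by norm_num)
    obtain ⟨h, μ, hg⟩ := cm1 n (16 * s) k w r (4 * n) (T ^ 2 + 4)
      (2 ^ ((T ^ 2 + T + 3) * (T ^ 2 + 4))) (n / 640000) (n / 640000 / 2) R rb grp vtx B
      (((2 : ℝ) ^ s) ^ 8) hRe (Nat.mul_div_le _ _) hvtx hTN h28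
      (by rw [h16]; nlinarith) (by
        have e1 : ((2 : ℝ) ^ s) ^ 8 / 2 ^ (16 * s) = (1 / (T : ℝ) ^ 4) ^ 2 := by
          rw [h16, ← hTRe]
          have : (0 : ℝ) < T := by linarith
          field_simp
        rw [e1, Real.sqrt_sq (by positivity)]
        have h1 : (T : ℝ) ≤ (T : ℝ) ^ 4 := le_self_pow₀ (by linarith) (by norm_num)
        have h2 : (4 : ℝ) * n ≤ (T : ℝ) ^ 4 := by nlinarith
        rw [← mul_assoc, mul_one_div, div_le_one (by positivity)]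
        exact h2) hcount
    refine ⟨gr2 vtx grp (sat2 R rb h), μ, fun u u' h => h.1, ?_, ?_⟩
    · intro t ht
      rcases Nat.lt_or_ge t.card 2 with h2 | h2
      · have : (t.card : ℝ) ≤ 1 := by exact_mod_cast (show t.card ≤ 1 by omega)
        linarith
      · obtain ⟨z, hz⟩ := cm2 n (2 * (16 * s)) k w r (4 * n) R rb grp vtx h hvtx t ht h2
        have h3 := hrhs (yv h z)
        have h4 := hgrp _ h3
        have h5 : t.card ≤ (univ.filter fun g => ∀ j, grp g j ∉ univ.filter fun v =>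
            val R rb (yv h z) v ≠ 0).card := by
          apply card_le_card_of_injOn Prod.fst
          · intro u hu
            refine mem_coe.mpr (mem_filter.mpr ⟨mem_univ _, fun j => ?_⟩)
            rw [mem_filter, not_and, not_not]
            intro _
            exact hz u (mem_coe.mp hu) j
          · intro u hu u' hu' huu
            by_contra hne
            exact (ht hu hu' hne).1 huu
        have h6 : t.card + 1 ≤ m := by omega
        have h7 : (t.card : ℝ) + 1 ≤ m := by exact_mod_cast h6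
        linarith
    · apply hg.mono_eta
      rw [hx]
      exact eta2 n s hnbig hs32

end H542.CL
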